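import Pool.Agent.Helper35.IntersectionFull
import Pool.Agent.Helper35.FreeProdBasic

set_option autoImplicit false

namespace Pool.Agent.Results.MP_d567b2_al.FreeTimesFree

/-- The configuration `c` is realizable in `G`: there are subgroups `H 1, ..., H k` of `G` such that
for every nonempty set `I` of indices, the intersection of the `H i`, `i ∈ I`, is finitely
generated exactly when `c I = 0`. -/
def Realizable (G : Type*) [Group G] (k : ℕ)
    (c : {I : Finset (Fin k) // I.Nonempty} → Fin 2) : Prop :=
  ∃ H : Fin k → Subgroup G, ∀ I : {I : Finset (Fin k) // I.Nonempty},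
    c I = 0 ↔ (⨅ i ∈ I.1, H i).FG

/-- `G` is intersection-full: all configurations are realizable in `G`. -/
def IntersectionFull (G : Type*) [Group G] : Prop :=
  ∀ k : ℕ, 1 ≤ k → ∀ c : {I : Finset (Fin k) // I.Nonempty} → Fin 2, Realizable G k c

lemma not_embed_F2Z2 : ¬ ∃ f : FreeGroup (Fin 2) × Multiplicative (Fin 2 → ℤ) →*
    FreeGroup (Fin 2) × FreeGroup (Fin 2), Function.Injective f := by
  rintro ⟨f, hf⟩
  let g : Multiplicative (Fin 3 → ℤ) →* FreeGroup (Fin 2) × Multiplicative (Fin 2 → ℤ) :=
    { toFun := fun x => (FreeGroup.of 0 ^ (Multiplicative.toAdd x 0),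
        Multiplicative.ofAdd ![Multiplicative.toAdd x 1, Multiplicative.toAdd x 2])
      map_one' := by
        ext1
        · simp
        · apply Multiplicative.toAdd.injective
          funext i
          fin_cases i <;> simp
      map_mul' := by
        intro x y
        ext1
        · simp [zpow_add]
        · apply Multiplicative.toAdd.injective
          funext i
          fin_cases i <;> simp }
  refine Helper35.FreeProdBasic.not_embed (f.comp g) (hf.comp ?_)
  intro x y hxy
  have h1 : FreeGroup.of (0 : Fin 2) ^ (Multiplicative.toAdd x 0)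
      = FreeGroup.of 0 ^ (Multiplicative.toAdd y 0) := congrArg Prod.fst hxy
  have h2 : (![Multiplicative.toAdd x 1, Multiplicative.toAdd x 2] : Fin 2 → ℤ)
      = ![Multiplicative.toAdd y 1, Multiplicative.toAdd y 2] := congrArg Prod.snd hxy
  apply Multiplicative.toAdd.injective
  funext i
  fin_cases i
  · have h3 := congrArg (FreeGroup.lift fun _ => Multiplicative.ofAdd (1 : ℤ)) h1
    rw [map_zpow, map_zpow, FreeGroup.lift_apply_of, ← ofAdd_zsmul, ← ofAdd_zsmul] at h3
    simpa using h3
  · exact congrFun h2 0
  · exact congrFun h2 1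

/-- `F₂ × F₂` is finitely presented and intersection-full and does not contain `F₂ × ℤ²`. -/
theorem result :
    Group.IsFinitelyPresented (FreeGroup (Fin 2) × FreeGroup (Fin 2)) ∧
      IntersectionFull (FreeGroup (Fin 2) × FreeGroup (Fin 2)) ∧
        ¬ ∃ f : FreeGroup (Fin 2) × Multiplicative (Fin 2 → ℤ) →*
          FreeGroup (Fin 2) × FreeGroup (Fin 2), Function.Injective f := by
  refine ⟨Helper35.FreeProdBasic.fp_prod _ _, ?_, not_embed_F2Z2⟩
  intro k _ c
  let bad : Finset (Fin k) → Prop := fun J => ∃ h : J.Nonempty, c ⟨J, h⟩ ≠ 0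
  obtain ⟨H, hH⟩ := Helper35.InterFull.exists_realization bad (fun J h => h.1)
  obtain ⟨f1, hf1⟩ := Helper35.FreeAffine.exists_embedding (Helper35.InterFull.XX bad)
  obtain ⟨f2, hf2⟩ := Helper35.FreeAffine.exists_embedding (Helper35.InterFull.YY bad)
  let f := MonoidHom.prodMap f1 f2
  have hf : Function.Injective f := Prod.map_injective.2 ⟨hf1, hf2⟩
  refine ⟨fun i => (H i).map f, fun I => ?_⟩
  rw [Helper35.InterFull.transfer f hf H I.1 I.2, hH I.1]
  constructor
  · rintro h ⟨_, h'⟩
    exact h' h
  · intro h
    by_contra h'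
    exact h ⟨I.2, h'⟩

end Pool.Agent.Results.MP_d567b2_al.FreeTimesFree
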